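import Mathlib

/-!
MP_ab534e_nt: the cup-of-coffee sequence. Basic facts.
-/

set_option autoImplicit false

namespace Pool.Agent.Helper1.CC

/-- `m` is a candidate for the term with index `n`. -/
def Cand (a : ℕ → ℕ) (n m : ℕ) : Prop :=
  0 < m ∧ (∀ i, 1 ≤ i → i < n → a i ≠ m) ∧
    (∀ p : ℕ, p.Prime → p ∣ a (n - 1) → ¬ p ∣ a (n - 2) → p ∣ m) ∧
    (∀ p : ℕ, p.Prime → p ∣ a (n - 1) → p ∣ a (n - 2) → ¬ p ∣ m)

/-- `a` is the cup-of-coffee sequence. -/
structure Cup (a : ℕ → ℕ) : Prop where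
  one : a 1 = 1
  two : a 2 = 2
  least : ∀ n, 3 ≤ n → IsLeast {m | Cand a n m} (a n)

/-- The primes of the term with index `n`. -/
def P (a : ℕ → ℕ) (n : ℕ) : Finset ℕ := (a n).primeFactors

/-- The primes that are required for the term with index `t + 2`. -/
def Q (a : ℕ → ℕ) (t : ℕ) : Finset ℕ := P a (t + 1) \ P a t

variable {a : ℕ → ℕ}

theorem Cup.pos (h : Cup a) (n : ℕ) (hn : 1 ≤ n) : 0 < a n := by
  rcases Nat.lt_or_ge n 3 with h3 | h3
  · rcases (show n = 1 ∨ n = 2 by omega) with rfl | rfl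
    · rw [h.one]; norm_num
    · rw [h.two]; norm_num
  · exact (h.least n h3).1.1

theorem Cup.inj_lt (h : Cup a) (i j : ℕ) (hi : 1 ≤ i) (hij : i < j) : a i ≠ a j := by
  rcases Nat.lt_or_ge j 3 with h3 | h3
  · obtain rfl : j = 2 := by omega
    obtain rfl : i = 1 := by omega
    rw [h.one, h.two]
    norm_num
  · exact (h.least j h3).1.2.1 i hi hij

theorem Cup.inj (h : Cup a) (i j : ℕ) (hi : 1 ≤ i) (hj : 1 ≤ j) (e : a i = a j) : i = j := by
  rcases Nat.lt_trichotomy i j with h1 | h1 | h1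
  · exact absurd e (h.inj_lt i j hi h1)
  · exact h1
  · exact absurd e.symm (h.inj_lt j i hj h1)

theorem Cup.mem_P (h : Cup a) (n : ℕ) (hn : 1 ≤ n) (p : ℕ) : p ∈ P a n ↔ p.Prime ∧ p ∣ a n := by
  unfold P
  rw [Nat.mem_primeFactors]
  have := h.pos n hn
  constructor
  · rintro ⟨h1, h2, _⟩
    exact ⟨h1, h2⟩
  · rintro ⟨h1, h2⟩
    exact ⟨h1, h2, by omega⟩

theorem Cup.Q_prime (h : Cup a) (t p : ℕ) (hp : p ∈ Q a t) : p.Prime := by
  unfold Q at hp
  rw [Finset.mem_sdiff, h.mem_P (t + 1) (by omega)] at hp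
  exact hp.1.1

theorem Cup.sub (h : Cup a) (t : ℕ) (ht : 1 ≤ t) : Q a t ⊆ P a (t + 2) := by
  intro p hp
  unfold Q at hp
  rw [Finset.mem_sdiff, h.mem_P (t + 1) (by omega), h.mem_P t ht] at hp
  obtain ⟨⟨h1, h2⟩, h3⟩ := hp
  rw [h.mem_P (t + 2) (by omega)]
  refine ⟨h1, ?_⟩
  apply (h.least (t + 2) (by omega)).1.2.2.1 p h1 h2
  intro h4
  exact h3 ⟨h1, h4⟩

theorem Cup.forb (h : Cup a) (t : ℕ) (ht : 1 ≤ t) (p : ℕ) (h1 : p ∈ P a (t + 1))
    (h2 : p ∈ P a t) : p ∉ P a (t + 2) := by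
  rw [h.mem_P (t + 1) (by omega)] at h1
  rw [h.mem_P t ht] at h2
  rw [h.mem_P (t + 2) (by omega)]
  rintro ⟨_, h3⟩
  exact (h.least (t + 2) (by omega)).1.2.2.2 p h1.1 h1.2 h2.2 h3

/-- Minimality of the term with index `t + 2`. -/
theorem Cup.le (h : Cup a) (t : ℕ) (ht : 1 ≤ t) (m : ℕ) (hm : 0 < m)
    (hun : ∀ i, 1 ≤ i → i < t + 2 → a i ≠ m) (hreq : Q a t ⊆ m.primeFactors)
    (hforb : ∀ p ∈ P a (t + 1), p ∈ P a t → ¬ p ∣ m) : a (t + 2) ≤ m := by
  apply (h.least (t + 2) (by omega)).2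
  refine ⟨hm, hun, ?_, ?_⟩
  · intro p hp h1 h2
    have h3 : p ∈ Q a t := by
      unfold Q
      rw [Finset.mem_sdiff, h.mem_P (t + 1) (by omega), h.mem_P t ht]
      exact ⟨⟨hp, h1⟩, fun h4 => h2 h4.2⟩
    exact Nat.dvd_of_mem_primeFactors (hreq h3)
  · intro p hp h1 h2
    exact hforb p ((h.mem_P (t + 1) (by omega) p).2 ⟨hp, h1⟩) ((h.mem_P t ht p).2 ⟨hp, h2⟩)

theorem Cup.inter (h : Cup a) (t : ℕ) (ht : 1 ≤ t) (p : ℕ) :
    p ∈ Q a t ↔ p ∈ P a (t + 2) ∧ p ∈ P a (t + 1) := by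
  constructor
  · intro hp
    refine ⟨h.sub t ht hp, ?_⟩
    unfold Q at hp
    exact (Finset.mem_sdiff.1 hp).1
  · rintro ⟨h1, h2⟩
    unfold Q
    rw [Finset.mem_sdiff]
    refine ⟨h2, fun h3 => ?_⟩
    exact h.forb t ht p h2 h3 h1

theorem Cup.Q_succ (h : Cup a) (t : ℕ) (ht : 1 ≤ t) : Q a (t + 1) = P a (t + 2) \ Q a t := by
  ext p
  rw [Finset.mem_sdiff, h.inter t ht]
  unfold Q
  rw [Finset.mem_sdiff]
  show (p ∈ P a (t + 2) ∧ p ∉ P a (t + 1)) ↔ _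
  tauto

theorem Cup.Q_disj (h : Cup a) (t : ℕ) (ht : 1 ≤ t) : Disjoint (Q a t) (P a (t + 3)) := by
  rw [Finset.disjoint_left]
  intro p hp
  rw [h.inter t ht] at hp
  exact h.forb (t + 1) (by omega) p hp.1 hp.2

/-- Minimality of the term with index `t + 3`. -/
theorem Cup.le' (h : Cup a) (t : ℕ) (ht : 1 ≤ t) (m : ℕ) (hm : 0 < m)
    (hun : ∀ i, 1 ≤ i → i < t + 3 → a i ≠ m) (hreq : Q a (t + 1) ⊆ m.primeFactors)
    (hforb : Disjoint (Q a t) m.primeFactors) : a (t + 3) ≤ m := by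
  apply h.le (t + 1) (by omega) m hm hun hreq
  intro p h1 h2 h3
  have h4 : p ∈ Q a t := (h.inter t ht p).2 ⟨h1, h2⟩
  have h5 : p.Prime := h.Q_prime t p h4
  exact Finset.disjoint_left.1 hforb h4 (Nat.mem_primeFactors.2 ⟨h5, h3, by omega⟩)

/-- A number that is a candidate infinitely often occurs. -/
theorem Cup.occurs (h : Cup a) (k : ℕ) (hk : 0 < k)
    (hf : ∃ᶠ t in Filter.atTop, Q a (t + 1) ⊆ k.primeFactors ∧
      Disjoint (Q a t) k.primeFactors) : ∃ n, 1 ≤ n ∧ a n = k := by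
  by_contra hne
  push Not at hne
  have h1 := hf.and_eventually (Filter.eventually_ge_atTop 1)
  rw [Nat.frequently_atTop_iff_infinite] at h1
  have h2 : Set.InjOn (fun t => a (t + 3))
      {n | (Q a (n + 1) ⊆ k.primeFactors ∧ Disjoint (Q a n) k.primeFactors) ∧ 1 ≤ n} := by
    intro i _ j _ hij
    have := h.inj (i + 3) (j + 3) (by omega) (by omega) hij
    omega
  have h3 := h1.image h2
  apply h3
  apply (Set.finite_Iic k).subset
  rintro _ ⟨t, ⟨⟨h4, h5⟩, h6⟩, rfl⟩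
  exact h.le' t h6 k hk (fun i hi _ => hne i hi) h4 h5

/-- The terms are unbounded: a property which implies a bound holds finitely often. -/
theorem Cup.unbounded (h : Cup a) (B : ℕ) : ¬ ∀ t, 1 ≤ t → a (t + 3) ≤ B := by
  intro hB
  have h2 : Set.InjOn (fun t => a (t + 4)) (Set.univ : Set ℕ) := by
    intro i _ j _ hij
    have := h.inj (i + 4) (j + 4) (by omega) (by omega) hij
    omega
  have h3 := Set.infinite_univ.image h2
  apply h3
  apply (Set.finite_Iic B).subset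
  rintro _ ⟨t, _, rfl⟩
  exact hB (t + 1) (by omega)

/-- Large numbers that occur have a large index. -/
theorem index_large (N n : ℕ)
    (hbig : ∑ i ∈ Finset.range (N + 1), a i < a n) : N < n := by
  by_contra hcon
  push Not at hcon
  have : a n ≤ ∑ i ∈ Finset.range (N + 1), a i :=
    Finset.single_le_sum (f := a) (fun _ _ => Nat.zero_le _) (Finset.mem_range.2 (by omega))
  omega

end Pool.Agent.Helper1.CC
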