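import Pool.Agent.Helper1.CC.Basic

/-!
MP_ab534e_nt: the cup-of-coffee sequence exists and is unique.
-/

set_option autoImplicit false

namespace Pool.Agent.Helper1.CC

/-- The sequence, by recursion. -/
noncomputable def cup : ℕ → ℕ
  | 0 => 0
  | 1 => 1
  | 2 => 2
  | n + 3 => sInf {m | 0 < m ∧ (∀ i (_ : i < n + 3), 1 ≤ i → cup i ≠ m) ∧
      (∀ p : ℕ, p.Prime → p ∣ cup (n + 2) → ¬ p ∣ cup (n + 1) → p ∣ m) ∧
      (∀ p : ℕ, p.Prime → p ∣ cup (n + 2) → p ∣ cup (n + 1) → ¬ p ∣ m)}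

theorem cup_set (n : ℕ) : {m | Cand cup (n + 3) m} =
    {m | 0 < m ∧ (∀ i (_ : i < n + 3), 1 ≤ i → cup i ≠ m) ∧
      (∀ p : ℕ, p.Prime → p ∣ cup (n + 2) → ¬ p ∣ cup (n + 1) → p ∣ m) ∧
      (∀ p : ℕ, p.Prime → p ∣ cup (n + 2) → p ∣ cup (n + 1) → ¬ p ∣ m)} := by
  ext m
  constructor
  · rintro ⟨h1, h2, h3, h4⟩
    exact ⟨h1, fun i hi h5 => h2 i h5 hi, h3, h4⟩
  · rintro ⟨h1, h2, h3, h4⟩
    exact ⟨h1, fun i h5 hi => h2 i hi h5, h3, h4⟩

theorem cup_eq (n : ℕ) : cup (n + 3) = sInf {m | Cand cup (n + 3) m} := by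
  rw [cup_set, cup]

/-- There is always a candidate. -/
theorem nonempty (a : ℕ → ℕ) (n : ℕ) (hn : 3 ≤ n) (hpos : 0 < a (n - 1)) :
    {m | Cand a n m}.Nonempty := by
  obtain ⟨q, hq1, hq⟩ := Nat.exists_infinite_primes (1 + ∑ i ∈ Finset.range n, a i)
  have hlt : ∀ i < n, a i < q := by
    intro i hi
    have : a i ≤ ∑ i ∈ Finset.range n, a i :=
      Finset.single_le_sum (f := a) (fun _ _ => Nat.zero_le _) (Finset.mem_range.2 hi)
    omega
  set S : Finset ℕ := (a (n - 1)).primeFactors.filter fun p => ¬ p ∣ a (n - 2) with hS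
  have hSp : ∀ p ∈ S, p.Prime := by
    intro p hp
    rw [hS, Finset.mem_filter] at hp
    exact Nat.prime_of_mem_primeFactors hp.1
  have hSpos : 0 < ∏ p ∈ S, p := Finset.prod_pos fun p hp => (hSp p hp).pos
  refine ⟨q * ∏ p ∈ S, p, Nat.mul_pos hq.pos hSpos, ?_, ?_, ?_⟩
  · intro i _ hi heq
    have h1 := hlt i hi
    have h2 : q * 1 ≤ q * ∏ p ∈ S, p := Nat.mul_le_mul_left _ hSpos
    omega
  · intro p hp h1 h2
    have h3 : p ∈ S := by
      rw [hS, Finset.mem_filter]
      exact ⟨Nat.mem_primeFactors.2 ⟨hp, h1, by omega⟩, h2⟩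
    exact (Finset.dvd_prod_of_mem (fun p => p) h3).trans (Dvd.intro_left _ rfl)
  · intro p hp h1 h2 h3
    rcases (hp.dvd_mul).1 h3 with h4 | h4
    · have h5 : p = q := (Nat.prime_dvd_prime_iff_eq hp hq).1 h4
      have h6 := Nat.le_of_dvd hpos h1
      have h7 := hlt (n - 1) (by omega)
      omega
    · obtain ⟨r, hr, h5⟩ := (hp.prime.dvd_finsetProd_iff _).1 h4
      have h6 : p = r := (Nat.prime_dvd_prime_iff_eq hp (hSp r hr)).1 h5
      rw [← h6, hS, Finset.mem_filter] at hr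
      exact hr.2 h2

theorem cup_pos (n : ℕ) (hn : 1 ≤ n) : 0 < cup n := by
  induction n using Nat.strong_induction_on with
  | _ n ih =>
    rcases Nat.lt_or_ge n 3 with h3 | h3
    · rcases (show n = 1 ∨ n = 2 by omega) with rfl | rfl
      · rw [cup]; norm_num
      · rw [cup]; norm_num
    · obtain ⟨m, rfl⟩ : ∃ m, n = m + 3 := ⟨n - 3, by omega⟩
      have h1 := nonempty cup (m + 3) (by omega) (ih (m + 3 - 1) (by omega) (by omega))
      have h2 := Nat.sInf_mem h1
      rw [← cup_eq] at h2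
      exact h2.1

theorem cup_cup : Cup cup where
  one := by rw [cup]
  two := by rw [cup]
  least := by
    intro n hn
    obtain ⟨m, rfl⟩ : ∃ m, n = m + 3 := ⟨n - 3, by omega⟩
    have h1 := nonempty cup (m + 3) (by omega) (cup_pos (m + 3 - 1) (by omega))
    rw [cup_eq]
    exact ⟨Nat.sInf_mem h1, fun x hx => Nat.sInf_le hx⟩

theorem unique (a b : ℕ → ℕ) (ha : Cup a) (hb : Cup b) (n : ℕ) (hn : 1 ≤ n) : a n = b n := by
  induction n using Nat.strong_induction_on with
  | _ n ih =>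
    rcases Nat.lt_or_ge n 3 with h3 | h3
    · rcases (show n = 1 ∨ n = 2 by omega) with rfl | rfl
      · rw [ha.one, hb.one]
      · rw [ha.two, hb.two]
    · have e1 : a (n - 1) = b (n - 1) := ih (n - 1) (by omega) (by omega)
      have e2 : a (n - 2) = b (n - 2) := ih (n - 2) (by omega) (by omega)
      have hset : {m | Cand a n m} = {m | Cand b n m} := by
        ext m
        show Cand a n m ↔ Cand b n m
        unfold Cand
        rw [e1, e2]
        have h1 : (∀ i, 1 ≤ i → i < n → a i ≠ m) ↔ (∀ i, 1 ≤ i → i < n → b i ≠ m) := by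
          constructor
          · intro h i h2 h3
            rw [← ih i h3 h2]
            exact h i h2 h3
          · intro h i h2 h3
            rw [ih i h3 h2]
            exact h i h2 h3
        rw [h1]
      have h1 := ha.least n h3
      rw [hset] at h1
      exact h1.unique (hb.least n h3)

end Pool.Agent.Helper1.CC
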