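import Pool.Agent.Helper1.CC.Basic

/-!
MP_ab534e_nt: the cup-of-coffee sequence. All missing numbers have the same prime factors.
-/

set_option autoImplicit false

namespace Pool.Agent.Helper1.CC

variable {a : ℕ → ℕ}

/-- The product of the required primes. -/
def w (a : ℕ → ℕ) (t : ℕ) : ℕ := ∏ p ∈ Q a t, p

theorem Cup.w_pos (h : Cup a) (t : ℕ) : 0 < w a t := by
  apply Finset.prod_pos
  intro p hp
  exact (h.Q_prime t p hp).pos

theorem Cup.w_primeFactors (h : Cup a) (t : ℕ) : (w a t).primeFactors = Q a t := by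
  unfold w
  exact Nat.primeFactors_prod fun p hp => h.Q_prime t p hp

/-- Multiplying the required primes by a prime that is not used so far. -/
theorem Cup.le_mul (h : Cup a) (t : ℕ) (ht : 1 ≤ t) (q : ℕ) (hq : q.Prime)
    (hnew : ∀ i, 1 ≤ i → i < t + 2 → ¬ q ∣ a i) : a (t + 2) ≤ w a t * q := by
  have hw := h.w_pos t
  apply h.le t ht _ (Nat.mul_pos hw hq.pos)
  · intro i h1 h2 h3
    exact hnew i h1 h2 (h3 ▸ Dvd.intro_left _ rfl)
  · rw [Nat.primeFactors_mul (by omega) hq.ne_zero, h.w_primeFactors]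
    exact Finset.subset_union_left
  · intro p h1 h2 h3
    have hp : p.Prime := ((h.mem_P (t + 1) (by omega) p).1 h1).1
    rcases (hp.dvd_mul).1 h3 with h4 | h4
    · have h5 : p ∈ Q a t := by
        rw [← h.w_primeFactors]
        exact Nat.mem_primeFactors.2 ⟨hp, h4, by omega⟩
      unfold Q at h5
      exact (Finset.mem_sdiff.1 h5).2 h2
    · rw [(Nat.prime_dvd_prime_iff_eq hp hq).1 h4] at h1
      exact hnew (t + 1) (by omega) (by omega) ((h.mem_P (t + 1) (by omega) q).1 h1).2

/-- Every prime divides some term. -/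
theorem Cup.exists_dvd (h : Cup a) (q : ℕ) (hq : q.Prime) : ∃ n, 1 ≤ n ∧ q ∣ a n := by
  by_contra hne
  push Not at hne
  apply h.unbounded (q * q)
  intro t ht
  have h1 := h.le_mul t ht q hq (fun i h1 _ => hne i h1)
  have h2 := h.le_mul (t + 1) (by omega) q hq (fun i h1 _ => hne i h1)
  have h3 : w a t * w a (t + 1) ∣ a (t + 2) := by
    have h4 : w a t * w a (t + 1) = ∏ p ∈ P a (t + 2), p := by
      unfold w
      rw [h.Q_succ t ht, mul_comm]
      exact Finset.prod_sdiff (h.sub t ht)
    rw [h4]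
    exact Nat.prod_primeFactors_dvd _
  have h5 := Nat.le_of_dvd (h.pos (t + 2) (by omega)) h3
  have h6 : w a (t + 1) ≤ q := by
    have h7 : w a t * w a (t + 1) ≤ w a t * q := h5.trans h1
    exact Nat.le_of_mul_le_mul_left h7 (h.w_pos t)
  calc a (t + 3) ≤ w a (t + 1) * q := h2
    _ ≤ q * q := Nat.mul_le_mul_right _ h6

/-- The first multiple of an odd prime `q`. -/
theorem Cup.first (h : Cup a) (q : ℕ) (hq : q.Prime) (hq2 : q ≠ 2) :
    ∃ t, 1 ≤ t ∧ (∀ i, 1 ≤ i → i < t + 2 → ¬ q ∣ a i) ∧ Q a (t + 1) = {q} ∧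
      ((a (t + 2) = q ∧ a (t + 3) = 2 * q ∧ Q a (t + 2) = {2}) ∨
        (a (t + 3) = q ∧ Q a (t + 2) = ∅)) := by
  classical
  have hex := h.exists_dvd q hq
  set m := Nat.find hex with hm
  obtain ⟨hm1, hmq⟩ := Nat.find_spec hex
  rw [← hm] at hm1 hmq
  have hmin : ∀ i, 1 ≤ i → i < m → ¬ q ∣ a i := by
    intro i h1 h2 h3
    exact Nat.find_min hex h2 ⟨h1, h3⟩
  have hm3 : 3 ≤ m := by
    by_contra hcon
    rcases (show m = 1 ∨ m = 2 by omega) with h1 | h1
    · rw [h1, h.one] at hmq
      exact hq.one_lt.ne' (Nat.dvd_one.1 hmq)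
    · rw [h1, h.two] at hmq
      exact hq2 ((Nat.prime_dvd_prime_iff_eq hq Nat.prime_two).1 hmq)
  obtain ⟨t, ht⟩ : ∃ t, m = t + 2 := ⟨m - 2, by omega⟩
  have ht1 : 1 ≤ t := by omega
  rw [ht] at hmin hmq
  have hw := h.w_pos t
  -- the first multiple
  have hP1 : q ∉ P a (t + 1) := fun hc =>
    hmin (t + 1) (by omega) (by omega) ((h.mem_P (t + 1) (by omega) q).1 hc).2
  have hPm : q ∈ P a (t + 2) := (h.mem_P (t + 2) (by omega) q).2 ⟨hq, hmq⟩
  have hQq : q ∉ Q a t := by
    intro hc
    unfold Q at hc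
    exact hP1 (Finset.mem_sdiff.1 hc).1
  have hle := h.le_mul t ht1 q hq hmin
  have hdvd : w a t * q ∣ a (t + 2) := by
    have h4 : q * w a t = ∏ p ∈ insert q (Q a t), p := by
      rw [Finset.prod_insert hQq]
      rfl
    rw [mul_comm, h4]
    refine (Finset.prod_dvd_prod_of_subset _ (P a (t + 2)) (fun p => p) ?_).trans
      (Nat.prod_primeFactors_dvd _)
    exact Finset.insert_subset hPm (h.sub t ht1)
  have heq : a (t + 2) = w a t * q :=
    le_antisymm hle (Nat.le_of_dvd (h.pos _ (by omega)) hdvd)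
  have hPeq : P a (t + 2) = insert q (Q a t) := by
    unfold P
    rw [heq, Nat.primeFactors_mul (by omega) hq.ne_zero, h.w_primeFactors, hq.primeFactors,
      Finset.union_comm]
    rfl
  have hQ1 : Q a (t + 1) = {q} := by
    rw [h.Q_succ t ht1, hPeq]
    ext p
    rw [Finset.mem_sdiff, Finset.mem_insert, Finset.mem_singleton]
    constructor
    · rintro ⟨h1 | h1, h2⟩
      · exact h1
      · exact absurd h1 h2
    · rintro rfl
      exact ⟨Or.inl rfl, hQq⟩
  have hQ2 : Q a (t + 2) = P a (t + 3) \ {q} := by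
    have h1 := h.Q_succ (t + 1) (by omega)
    rw [hQ1] at h1
    exact h1
  have hdvd3 : q ∣ a (t + 3) := by
    have h1 := h.sub (t + 1) (by omega)
    rw [hQ1] at h1
    exact ((h.mem_P (t + 3) (by omega) q).1 (h1 (Finset.mem_singleton_self q))).2
  refine ⟨t, ht1, hmin, hQ1, ?_⟩
  by_cases hw1 : w a t = 1
  · left
    have hQt : Q a t = ∅ := by
      rw [← h.w_primeFactors, hw1]
      exact Nat.primeFactors_one
    have e1 : a (t + 2) = q := by rw [heq, hw1, one_mul]
    have hle3 : a (t + 3) ≤ 2 * q := by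
      apply h.le' t ht1 (2 * q) (by have := hq.pos; omega)
      · intro i h1 h2 h3
        rcases Nat.lt_or_ge i (t + 2) with h4 | h4
        · exact hmin i h1 h4 (h3 ▸ Dvd.intro_left _ rfl)
        · obtain rfl : i = t + 2 := by omega
          have := hq.pos
          omega
      · rw [hQ1, Finset.singleton_subset_iff]
        exact Nat.mem_primeFactors.2 ⟨hq, Dvd.intro_left _ rfl, by have := hq.pos; omega⟩
      · rw [hQt]
        exact Finset.disjoint_empty_left _
    have e2 : a (t + 3) = 2 * q := by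
      obtain ⟨c, hc⟩ := hdvd3
      have hpos := h.pos (t + 3) (by omega)
      have hne : a (t + 2) ≠ a (t + 3) := h.inj_lt (t + 2) (t + 3) (by omega) (by omega)
      have hc0 : c ≠ 0 := by
        rintro rfl
        omega
      have hc1 : c ≠ 1 := by
        rintro rfl
        omega
      have : q * 2 ≤ q * c := Nat.mul_le_mul_left _ (by omega)
      omega
    refine ⟨e1, e2, ?_⟩
    rw [hQ2]
    unfold P
    rw [e2, Nat.primeFactors_mul (by norm_num) hq.ne_zero, hq.primeFactors,
      Nat.prime_two.primeFactors]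
    ext p
    rw [Finset.mem_sdiff, Finset.mem_union, Finset.mem_singleton, Finset.mem_singleton]
    constructor
    · rintro ⟨h1 | h1, h2⟩
      · exact h1
      · exact absurd h1 h2
    · rintro rfl
      exact ⟨Or.inl rfl, fun hc => hq2 hc.symm⟩
  · right
    have e1 : a (t + 3) = q := by
      apply le_antisymm _ (Nat.le_of_dvd (h.pos _ (by omega)) hdvd3)
      apply h.le' t ht1 q hq.pos
      · intro i h1 h2 h3
        rcases Nat.lt_or_ge i (t + 2) with h4 | h4
        · exact hmin i h1 h4 (h3 ▸ dvd_rfl)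
        · obtain rfl : i = t + 2 := by omega
          rw [heq] at h3
          have h5 : w a t * q = 1 * q := by rw [h3, one_mul]
          exact hw1 (Nat.eq_of_mul_eq_mul_right hq.pos h5)
      · rw [hQ1, hq.primeFactors]
      · rw [hq.primeFactors, Finset.disjoint_singleton_right]
        exact hQq
    refine ⟨e1, ?_⟩
    rw [hQ2]
    unfold P
    rw [e1, hq.primeFactors, Finset.sdiff_self]

/-- Every prime occurs. -/
theorem Cup.prime_occurs (h : Cup a) (q : ℕ) (hq : q.Prime) : ∃ n, 1 ≤ n ∧ a n = q := by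
  by_cases hq2 : q = 2
  · exact ⟨2, by norm_num, by rw [h.two, hq2]⟩
  · obtain ⟨t, _, _, _, ⟨h1, _⟩ | ⟨h1, _⟩⟩ := h.first q hq hq2
    · exact ⟨t + 2, by omega, h1⟩
    · exact ⟨t + 3, by omega, h1⟩

/-- Large primes occur late. -/
theorem Cup.first_large (h : Cup a) (k N : ℕ) : ∃ q, q.Prime ∧ q ≠ 2 ∧ k < q ∧
    ∃ t, N ≤ t ∧ 1 ≤ t ∧ Q a (t + 1) = {q} ∧
      ((a (t + 2) = q ∧ a (t + 3) = 2 * q ∧ Q a (t + 2) = {2}) ∨
        (a (t + 3) = q ∧ Q a (t + 2) = ∅)) := by
  obtain ⟨q, hq1, hq⟩ := Nat.exists_infinite_primes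
    (k + 3 + ∑ i ∈ Finset.range (N + 3), a i)
  refine ⟨q, hq, by omega, by omega, ?_⟩
  obtain ⟨t, ht1, hmin, hQ, hcase⟩ := h.first q hq (by omega)
  refine ⟨t, ?_, ht1, hQ, hcase⟩
  by_contra hcon
  push Not at hcon
  have hdvd : q ∣ a (t + 2) ∨ q ∣ a (t + 3) := by
    rcases hcase with ⟨h1, _⟩ | ⟨h1, _⟩
    · exact Or.inl (h1 ▸ dvd_rfl)
    · exact Or.inr (h1 ▸ dvd_rfl)
  have hbd : ∀ i, i < N + 3 → 1 ≤ i → ¬ q ∣ a i := by
    intro i hi h1 h2
    have h3 := Nat.le_of_dvd (h.pos i h1) h2
    have h4 : a i ≤ ∑ i ∈ Finset.range (N + 3), a i :=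
      Finset.single_le_sum (f := a) (fun _ _ => Nat.zero_le _) (Finset.mem_range.2 hi)
    omega
  rcases hdvd with h1 | h1
  · exact hbd (t + 2) (by omega) (by omega) h1
  · exact hbd (t + 3) (by omega) (by omega) h1

/-- Every even number occurs. -/
theorem Cup.even_occurs (h : Cup a) (k : ℕ) (hk : 0 < k) (hk2 : 2 ∣ k) :
    ∃ n, 1 ≤ n ∧ a n = k := by
  apply h.occurs k hk
  rw [Filter.frequently_atTop]
  intro N
  obtain ⟨q, hq, hq2, hkq, t, htN, ht1, hQ, hcase⟩ := h.first_large k N
  refine ⟨t + 1, by omega, ?_⟩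
  have hd : Disjoint (Q a (t + 1)) k.primeFactors := by
    rw [hQ, Finset.disjoint_singleton_left]
    intro hc
    have := Nat.le_of_mem_primeFactors hc
    omega
  refine ⟨?_, hd⟩
  rcases hcase with ⟨_, _, h1⟩ | ⟨_, h1⟩
  · show Q a (t + 2) ⊆ _
    rw [h1, Finset.singleton_subset_iff]
    exact Nat.mem_primeFactors.2 ⟨Nat.prime_two, hk2, by omega⟩
  · show Q a (t + 2) ⊆ _
    rw [h1]
    exact Finset.empty_subset _

/-- If infinitely many numbers `f i` occur then their indices are unbounded. -/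
theorem Cup.frequently (h : Cup a) (S : Finset ℕ) (f : ℕ → ℕ) (hf : ∀ B, ∃ i, B < f i)
    (hS : ∀ i, (f i).primeFactors = S) (hocc : ∀ i, ∃ n, 1 ≤ n ∧ a n = f i) :
    ∃ᶠ t in Filter.atTop, 1 ≤ t ∧ P a (t + 3) = S := by
  rw [Filter.frequently_atTop]
  intro N
  obtain ⟨i, hi⟩ := hf (∑ i ∈ Finset.range (N + 5), a i)
  obtain ⟨n, hn1, hn⟩ := hocc i
  have hlarge : N + 4 < n := index_large (a := a) (N + 4) n (by rw [hn]; exact hi)
  refine ⟨n - 3, by omega, by omega, ?_⟩
  have : n - 3 + 3 = n := by omega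
  rw [this]
  unfold P
  rw [hn]
  exact hS i

/-- A prime that divides one missing number divides all missing numbers. -/
theorem Cup.key (h : Cup a) (k k' : ℕ) (hk : 0 < k) (hk' : 0 < k')
    (hmiss : ∀ n, 1 ≤ n → a n ≠ k) (hmiss' : ∀ n, 1 ≤ n → a n ≠ k') (s : ℕ)
    (hs : s ∈ k.primeFactors) : s ∈ k'.primeFactors := by
  by_contra hs'
  have hsp : s.Prime := Nat.prime_of_mem_primeFactors hs
  have h2k : ∀ m, 0 < m → (∀ n, 1 ≤ n → a n ≠ m) → 2 ∉ m.primeFactors := by
    intro m hm h1 h2
    obtain ⟨n, hn1, hn⟩ := h.even_occurs m hm (Nat.dvd_of_mem_primeFactors h2)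
    exact h1 n hn1 hn
  have hodd := h2k k hk hmiss
  have hodd' := h2k k' hk' hmiss'
  have hs2 : s ≠ 2 := by
    rintro rfl
    exact hodd hs
  -- the two ways to reach a contradiction
  have hA : ¬ ∃ᶠ t in Filter.atTop, Q a (t + 1) ⊆ k.primeFactors ∧
      Disjoint (Q a t) k.primeFactors := by
    intro hf
    obtain ⟨n, hn1, hn⟩ := h.occurs k hk hf
    exact hmiss n hn1 hn
  have hB : ¬ ∃ᶠ t in Filter.atTop, Q a (t + 1) ⊆ k'.primeFactors ∧
      Disjoint (Q a t) k'.primeFactors := by
    intro hf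
    obtain ⟨n, hn1, hn⟩ := h.occurs k' hk' hf
    exact hmiss' n hn1 hn
  have hA' : ∀ᶠ t in Filter.atTop, ¬ (Q a (t + 2) ⊆ k.primeFactors ∧
      Disjoint (Q a (t + 1)) k.primeFactors) := by
    rw [Filter.not_frequently] at hA
    exact (Filter.tendsto_add_atTop_nat 1).eventually hA
  have hB' : ∀ᶠ t in Filter.atTop, ¬ (Q a (t + 2) ⊆ k'.primeFactors ∧
      Disjoint (Q a (t + 1)) k'.primeFactors) := by
    rw [Filter.not_frequently] at hB
    exact (Filter.tendsto_add_atTop_nat 1).eventually hB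
  -- first step: all powers of `s` occur
  have hpow : ∀ c, ∃ n, 1 ≤ n ∧ a n = s ^ (c + 1) := by
    intro c
    apply h.occurs (s ^ (c + 1)) (pow_pos hsp.pos _)
    have hf := h.frequently {2, s} (fun i => 2 * s ^ (i + 1))
      (by
        intro B
        refine ⟨B, ?_⟩
        have h1 : B + 1 < s ^ (B + 1) := Nat.lt_pow_self hsp.one_lt
        show B < 2 * s ^ (B + 1)
        omega)
      (by
        intro i
        show (2 * s ^ (i + 1)).primeFactors = _
        rw [Nat.primeFactors_mul (by norm_num) (pow_ne_zero _ hsp.ne_zero),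
          Nat.primeFactors_prime_pow (by omega) hsp, Nat.prime_two.primeFactors]
        rfl)
      (by
        intro i
        apply h.even_occurs _ (by have := pow_pos hsp.pos (i + 1); omega)
        exact Dvd.intro _ rfl)
    refine ((hf.and_eventually hA').and_eventually hB').mono ?_
    rintro t ⟨⟨⟨ht1, hP⟩, hnA⟩, hnB⟩
    have hsub := h.sub (t + 1) (by omega)
    have hsucc := h.Q_succ (t + 1) (by omega)
    have hdis := h.Q_disj t ht1
    change Q a (t + 1) ⊆ P a (t + 3) at hsub
    change Q a (t + 2) = P a (t + 3) \ Q a (t + 1) at hsucc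
    rw [hP] at hsub hsucc hdis
    rw [Nat.primeFactors_prime_pow (by omega) hsp]
    have hdis' : Disjoint (Q a t) {s} :=
      hdis.mono_right (by intro x hx; rw [Finset.mem_singleton] at hx; simp [hx])
    refine ⟨?_, hdis'⟩
    by_contra hcon
    have h2Q : 2 ∈ Q a (t + 1) := by
      by_contra h2
      apply hcon
      intro x hx
      have h1 := hsub hx
      rw [Finset.mem_insert] at h1
      rcases h1 with rfl | h1
      · exact absurd hx h2
      · exact h1
    by_cases hsQ : s ∈ Q a (t + 1)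
    · -- both primes required: the next position is free
      apply hnB
      have h1 : Q a (t + 2) = ∅ := by
        rw [hsucc, Finset.sdiff_eq_empty_iff_subset]
        intro x hx
        rw [Finset.mem_insert, Finset.mem_singleton] at hx
        rcases hx with rfl | rfl
        · exact h2Q
        · exact hsQ
      refine ⟨by rw [h1]; exact Finset.empty_subset _, ?_⟩
      apply Finset.disjoint_of_subset_left hsub
      rw [Finset.disjoint_left]
      intro x hx hx'
      rw [Finset.mem_insert, Finset.mem_singleton] at hx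
      rcases hx with rfl | rfl
      · exact hodd' hx'
      · exact hs' hx'
    · -- only `2` is required: next only `s` is required
      apply hnA
      constructor
      · rw [hsucc]
        intro x hx
        rw [Finset.mem_sdiff, Finset.mem_insert, Finset.mem_singleton] at hx
        rcases hx.1 with h1 | h1
        · rw [h1] at hx
          exact absurd h2Q hx.2
        · rw [h1]
          exact hs
      · rw [Finset.disjoint_left]
        intro x hx hx'
        have h1 := hsub hx
        rw [Finset.mem_insert, Finset.mem_singleton] at h1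
        rcases h1 with h1 | h1
        · rw [h1] at hx'
          exact hodd hx'
        · rw [h1] at hx
          exact hsQ hx
  -- second step
  have hf := h.frequently {s} (fun i => s ^ (i + 1))
    (by
      intro B
      refine ⟨B, ?_⟩
      have h1 : B + 1 < s ^ (B + 1) := Nat.lt_pow_self hsp.one_lt
      show B < s ^ (B + 1)
      omega)
    (by
      intro i
      exact Nat.primeFactors_prime_pow (by omega) hsp)
    hpow
  obtain ⟨t, ⟨⟨ht1, hP⟩, hnA⟩, hnB⟩ := ((hf.and_eventually hA').and_eventually hB').exists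
  have hsub := h.sub (t + 1) (by omega)
  have hsucc := h.Q_succ (t + 1) (by omega)
  change Q a (t + 1) ⊆ P a (t + 3) at hsub
  change Q a (t + 2) = P a (t + 3) \ Q a (t + 1) at hsucc
  rw [hP] at hsub hsucc
  rcases Finset.subset_singleton_iff.1 hsub with h1 | h1
  · apply hnA
    rw [hsucc, h1, Finset.sdiff_empty, Finset.singleton_subset_iff]
    exact ⟨hs, Finset.disjoint_empty_left _⟩
  · apply hnB
    rw [hsucc, h1, Finset.sdiff_self]
    exact ⟨Finset.empty_subset _, Finset.disjoint_singleton_left.2 hs'⟩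

/-- All missing numbers have the same prime factors. -/
theorem Cup.missing (h : Cup a) (k k' : ℕ) (hk : 0 < k) (hk' : 0 < k')
    (hmiss : ∀ n, 1 ≤ n → a n ≠ k) (hmiss' : ∀ n, 1 ≤ n → a n ≠ k') :
    k.primeFactors = k'.primeFactors :=
  Finset.Subset.antisymm (fun s hs => h.key k k' hk hk' hmiss hmiss' s hs)
    (fun s hs => h.key k' k hk' hk hmiss' hmiss s hs)

/-- Only finitely many numbers with the prime factors of a missing number occur. -/
theorem Cup.finite (h : Cup a) (k : ℕ) (hk : 0 < k) (hmiss : ∀ n, 1 ≤ n → a n ≠ k) :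
    {n | (a n).primeFactors = k.primeFactors}.Finite := by
  by_contra hinf
  have h0 : {n | (a n).primeFactors = k.primeFactors}.Infinite := hinf
  rw [← Nat.frequently_atTop_iff_infinite, Filter.frequently_atTop] at h0
  have hf : ∃ᶠ t in Filter.atTop, Q a (t + 1) ⊆ k.primeFactors ∧
      Disjoint (Q a t) k.primeFactors := by
    rw [Filter.frequently_atTop]
    intro N
    obtain ⟨n, hn, hn'⟩ := h0 (N + 4)
    refine ⟨n - 3, by omega, ?_⟩
    have h1 : n - 3 + 3 = n := by omega
    have h2 := h.sub (n - 3 + 1) (by omega)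
    have h3 := h.Q_disj (n - 3) (by omega)
    change Q a (n - 3 + 1) ⊆ P a (n - 3 + 3) at h2
    rw [h1] at h2 h3
    unfold P at h2 h3
    rw [hn'] at h2 h3
    exact ⟨h2, h3⟩
  obtain ⟨n, hn1, hn⟩ := h.occurs k hk hf
  exact hmiss n hn1 hn

end Pool.Agent.Helper1.CC
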